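import Pool.Agent.Helper70.EH.Goals2

/-!
# Project EH, packet PS: averaging two variables
-/

namespace Pool.Agent.Helper69.EH.PS

open Pool.Agent.Helper70.EH Finset

/-- one factor -/
noncomputable def ser (φ : ℕ → ℝ) (a : ℝ) : PowerSeries ℝ := PowerSeries.mk fun n => φ n * a ^ n

/-- the two chosen factors -/
noncomputable def T (φ : ℕ → ℝ) (t : ℕ) (a b : ℝ) : ℝ :=
  ∑ p ∈ HasAntidiagonal.antidiagonal t, φ p.1 * φ p.2 * (a ^ p.1 * b ^ p.2)

/-- the other factors -/
noncomputable def c {r : ℕ} (φ : ℕ → ℝ) (i j : Fin r) (y : Fin r → ℝ) (s : ℕ) : ℝ :=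
  PowerSeries.coeff s (∏ l ∈ (univ.erase i).erase j, ser φ (y l))

lemma coeff_two (φ : ℕ → ℝ) (t : ℕ) (a b : ℝ) :
    PowerSeries.coeff t (ser φ a * ser φ b) = T φ t a b := by
  rw [PowerSeries.coeff_mul, T]
  refine sum_congr rfl fun p _ => ?_
  simp only [ser, PowerSeries.coeff_mk]
  ring

lemma gs_split {r : ℕ} (φ : ℕ → ℝ) (d : ℕ) (y : Fin r → ℝ) {i j : Fin r} (hij : i ≠ j) :
    gs φ d y = ∑ q ∈ HasAntidiagonal.antidiagonal d, T φ q.1 (y i) (y j) * c φ i j y q.2 := by
  have h1 : gs φ d y = PowerSeries.coeff d (∏ l, ser φ (y l)) := rfl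
  rw [h1, ← mul_prod_erase univ (fun l => ser φ (y l)) (mem_univ i),
    ← mul_prod_erase (univ.erase i) (fun l => ser φ (y l)) (mem_erase.2 ⟨hij.symm, mem_univ j⟩),
    ← mul_assoc, PowerSeries.coeff_mul]
  refine sum_congr rfl fun q _ => ?_
  rw [coeff_two, c]

lemma T_diag (φ : ℕ → ℝ) (t : ℕ) (z : ℝ) : T φ t z z =
    (∑ p ∈ HasAntidiagonal.antidiagonal t, φ p.1 * φ p.2) * z ^ t := by
  rw [T, sum_mul]
  refine sum_congr rfl fun p hp => ?_
  rw [HasAntidiagonal.mem_antidiagonal] at hp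
  rw [← pow_add, hp]

lemma c_update {r : ℕ} (φ : ℕ → ℝ) {i j : Fin r} (x : Fin r → ℝ) (z : ℝ) (s : ℕ) :
    c φ i j (Function.update (Function.update x i z) j z) s = c φ i j x s := by
  rw [c, c]
  congr 1
  refine prod_congr rfl fun l hl => ?_
  rw [mem_erase, mem_erase] at hl
  rw [Function.update_of_ne hl.1, Function.update_of_ne hl.2.1]

lemma prod_nonneg_coeff {ι : Type} [DecidableEq ι] (S : Finset ι) (f : ι → PowerSeries ℝ)
    (hf : ∀ l ∈ S, ∀ n, 0 ≤ PowerSeries.coeff n (f l)) (n : ℕ) :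
    0 ≤ PowerSeries.coeff n (∏ l ∈ S, f l) := by
  induction S using Finset.induction_on generalizing n with
  | empty =>
    rw [prod_empty, PowerSeries.coeff_one]
    split_ifs <;> norm_num
  | insert a S ha ih =>
    rw [prod_insert ha, PowerSeries.coeff_mul]
    refine sum_nonneg fun q _ => mul_nonneg (hf a (mem_insert_self a S) _) (ih ?_ _)
    exact fun l hl => hf l (mem_insert_of_mem hl)

lemma c_nonneg {r : ℕ} (φ : ℕ → ℝ) (hφ : ∀ n, 0 ≤ φ n) (i j : Fin r) (y : Fin r → ℝ)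
    (hy : ∀ l, 0 < y l) (s : ℕ) : 0 ≤ c φ i j y s := by
  refine prod_nonneg_coeff _ _ (fun l _ n => ?_) s
  simp only [ser, PowerSeries.coeff_mk]
  exact mul_nonneg (hφ n) (pow_nonneg (hy l).le n)

lemma c_zero {r : ℕ} (φ : ℕ → ℝ) (hφ : φ 0 = 1) (i j : Fin r) (y : Fin r → ℝ) :
    c φ i j y 0 = 1 := by
  rw [c, PowerSeries.coeff_zero_eq_constantCoeff_apply, map_prod]
  refine prod_eq_one fun l _ => ?_
  rw [← PowerSeries.coeff_zero_eq_constantCoeff_apply]
  simp only [ser, PowerSeries.coeff_mk, hφ, pow_zero, mul_one]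

lemma ph_nonneg (n : ℕ) : 0 ≤ ph n := by
  rw [ph]; positivity

lemma ph_zero : ph 0 = 1 := by
  rw [ph]; norm_num

lemma T_nonneg (φ : ℕ → ℝ) (hφ : ∀ n, 0 ≤ φ n) (t : ℕ) (a b : ℝ) (ha : 0 < a) (hb : 0 < b) :
    0 ≤ T φ t a b :=
  sum_nonneg fun _ _ => mul_nonneg (mul_nonneg (hφ _) (hφ _))
    (mul_nonneg (pow_nonneg ha.le _) (pow_nonneg hb.le _))

lemma T_one (t : ℕ) (a b : ℝ) : T (fun _ => 1) t a b =
    ∑ p ∈ HasAntidiagonal.antidiagonal t, a ^ p.1 * b ^ p.2 := by
  rw [T]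
  refine sum_congr rfl fun _ _ => by ring

lemma g1_pos {r : ℕ} (d : ℕ) {i j : Fin r} (hij : i ≠ j) :
    0 < gs (fun _ => 1) d (fun _ : Fin r => (1 : ℝ)) := by
  rw [gs_split _ _ _ hij]
  refine sum_pos' (fun q _ => mul_nonneg (T_nonneg _ (fun _ => zero_le_one) _ _ _ one_pos one_pos)
    (c_nonneg _ (fun _ => zero_le_one) _ _ _ (fun _ => one_pos) _)) ⟨(d, 0), ?_, ?_⟩
  · rw [HasAntidiagonal.mem_antidiagonal, add_zero]
  · rw [c_zero _ rfl, mul_one, T_one]
    simp only [one_pow, mul_one, sum_const, Nat.card_antidiagonal, nsmul_eq_mul]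
    positivity

theorem t (hTW : Pool.Agent.Helper70.EH.G_TW) (hIN : Pool.Agent.Helper70.EH.G_IN) :
    Pool.Agent.Helper70.EH.G_PS := by
  intro r d x i j hd hx hij hne
  by_contra hcon
  push Not at hcon
  -- the value of `df` after the update
  set S : (ℕ → ℝ) → ℕ → ℝ := fun φ t => ∑ p ∈ HasAntidiagonal.antidiagonal t, φ p.1 * φ p.2 with hS
  set M : ℕ → ℝ := fun t => ∑ p ∈ HasAntidiagonal.antidiagonal t, x i ^ p.1 * x j ^ p.2 with hM
  set g1 := gs (fun _ => 1) d (fun _ : Fin r => (1 : ℝ)) with hg1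
  set gp := gs ph d (fun _ : Fin r => (1 : ℝ)) with hgp
  have hupd : ∀ (φ : ℕ → ℝ) (z : ℝ), gs φ d (Function.update (Function.update x i z) j z) =
      ∑ q ∈ HasAntidiagonal.antidiagonal d, S φ q.1 * c φ i j x q.2 * z ^ q.1 := by
    intro φ z
    rw [gs_split _ _ _ hij]
    refine sum_congr rfl fun q _ => ?_
    rw [c_update, Function.update_self, Function.update_of_ne hij, Function.update_self, T_diag]
    ring
  have hdf : ∀ z : ℝ, df d (Function.update (Function.update x i z) j z) =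
      g1 * (∑ q ∈ HasAntidiagonal.antidiagonal d, S ph q.1 * c ph i j x q.2 * z ^ q.1) -
      gp * (∑ q ∈ HasAntidiagonal.antidiagonal d,
        S (fun _ => 1) q.1 * c (fun _ => 1) i j x q.2 * z ^ q.1) := by
    intro z
    rw [df, hupd, hupd]
  -- the integral
  have hint : ∀ (φ : ℕ → ℝ), ∫ θ in (0 : ℝ)..1, (∑ q ∈ HasAntidiagonal.antidiagonal d,
      S φ q.1 * c φ i j x q.2 * (θ * x i + (1 - θ) * x j) ^ q.1) =
      ∑ q ∈ HasAntidiagonal.antidiagonal d,
        S φ q.1 * c φ i j x q.2 * (M q.1 / ((q.1 : ℝ) + 1)) := by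
    intro φ
    rw [intervalIntegral.integral_finsetSum]
    · refine sum_congr rfl fun q _ => ?_
      rw [intervalIntegral.integral_const_mul, hIN]
    · intro q _
      apply Continuous.intervalIntegrable
      fun_prop
  have hcont : ∀ (φ : ℕ → ℝ), Continuous fun θ : ℝ => (∑ q ∈ HasAntidiagonal.antidiagonal d,
      S φ q.1 * c φ i j x q.2 * (θ * x i + (1 - θ) * x j) ^ q.1) := by
    intro φ
    fun_prop
  have hle : ∫ θ in (0 : ℝ)..1, (g1 * (∑ q ∈ HasAntidiagonal.antidiagonal d,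
      S ph q.1 * c ph i j x q.2 * (θ * x i + (1 - θ) * x j) ^ q.1) -
      gp * (∑ q ∈ HasAntidiagonal.antidiagonal d,
        S (fun _ => 1) q.1 * c (fun _ => 1) i j x q.2 * (θ * x i + (1 - θ) * x j) ^ q.1)) ≤
      ∫ θ in (0 : ℝ)..1, df d x := by
    refine intervalIntegral.integral_mono_on zero_le_one ?_ ?_ ?_
    · apply Continuous.intervalIntegrable
      exact ((hcont ph).const_mul g1).sub ((hcont (fun _ => 1)).const_mul gp)
    · exact intervalIntegrable_const
    · intro θ hθ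
      rw [← hdf]
      have h1 : 0 ≤ θ := hθ.1
      have h2 : 0 ≤ 1 - θ := sub_nonneg.2 hθ.2
      apply hcon
      · rcases le_total (x i) (x j) with h | h
        · rw [min_eq_left h]; nlinarith
        · rw [min_eq_right h]; nlinarith
      · rcases le_total (x i) (x j) with h | h
        · rw [max_eq_right h]; nlinarith
        · rw [max_eq_left h]; nlinarith
  rw [intervalIntegral.integral_sub, intervalIntegral.integral_const_mul,
    intervalIntegral.integral_const_mul, hint ph, hint (fun _ => 1), intervalIntegral.integral_const, sub_zero,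
    one_smul, df, gs_split ph d x hij, gs_split (fun _ => 1) d x hij] at hle
  rotate_left
  · apply Continuous.intervalIntegrable
    exact (hcont ph).const_mul g1
  · apply Continuous.intervalIntegrable
    exact (hcont (fun _ => 1)).const_mul gp
  -- the second terms agree
  have h1 : ∑ q ∈ HasAntidiagonal.antidiagonal d,
      S (fun _ => 1) q.1 * c (fun _ => 1) i j x q.2 * (M q.1 / ((q.1 : ℝ) + 1)) =
      ∑ q ∈ HasAntidiagonal.antidiagonal d, T (fun _ => 1) q.1 (x i) (x j) *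
        c (fun _ => 1) i j x q.2 := by
    refine sum_congr rfl fun q _ => ?_
    rw [T_one]
    have h2 : S (fun _ => 1) q.1 = (q.1 : ℝ) + 1 := by
      rw [hS]
      simp only [mul_one, sum_const, Nat.card_antidiagonal, nsmul_eq_mul]
      push_cast
      ring
    rw [h2]
    have h3 : ((q.1 : ℝ) + 1) ≠ 0 := by positivity
    field_simp
    rw [hM]
  -- the first terms
  have h4 : ∑ q ∈ HasAntidiagonal.antidiagonal d, T ph q.1 (x i) (x j) * c ph i j x q.2 <
      ∑ q ∈ HasAntidiagonal.antidiagonal d,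
        S ph q.1 * c ph i j x q.2 * (M q.1 / ((q.1 : ℝ) + 1)) := by
    refine sum_lt_sum (fun q _ => ?_) ⟨(d, 0), ?_, ?_⟩
    · have h5 := (hTW q.1 (x i) (x j) (hx i) (hx j)).1
      have h6 : T ph q.1 (x i) (x j) ≤ S ph q.1 * M q.1 / ((q.1 : ℝ) + 1) := by
        rw [le_div_iff₀ (by positivity), mul_comm]
        exact h5
      have h7 := mul_le_mul_of_nonneg_right h6 (c_nonneg ph ph_nonneg i j x hx q.2)
      refine h7.trans (le_of_eq ?_)
      ring
    · rw [HasAntidiagonal.mem_antidiagonal, add_zero]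
    · have h5 := (hTW d (x i) (x j) (hx i) (hx j)).2 hd hne
      have h6 : T ph d (x i) (x j) < S ph d * M d / ((d : ℝ) + 1) := by
        rw [lt_div_iff₀ (by positivity), mul_comm]
        exact h5
      simp only
      rw [c_zero ph ph_zero, mul_one, mul_one]
      refine h6.trans_eq ?_
      ring
  rw [h1] at hle
  have h8 := mul_lt_mul_of_pos_left h4 (g1_pos (r := r) d hij)
  linarith

end Pool.Agent.Helper69.EH.PS
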